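import Pool.Agent.Helper7.BM.Goals

set_option autoImplicit false

open Finset
open scoped ContDiff

namespace Pool.Agent.Helper79.BM

open Pool.Agent.Helper7.BM

theorem iter_poly (P : Polynomial ℝ) (j : ℕ) :
    iteratedDeriv j (fun x => P.eval x) = fun x => (Polynomial.derivative^[j] P).eval x := by
  induction j with
  | zero => simp
  | succ j ih =>
    rw [iteratedDeriv_succ, ih]
    funext x
    rw [Polynomial.deriv, Function.iterate_succ_apply']

theorem poly_cd (P : Polynomial ℝ) (n : WithTop ℕ∞) : ContDiff ℝ n (fun x => P.eval x) := by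
  induction P using Polynomial.induction_on' with
  | add p q hp hq => simpa using hp.add hq
  | monomial k a =>
    simp only [Polynomial.eval_monomial]
    exact contDiff_const.mul (contDiff_id.pow k)

theorem hl (h1 : StmtROL) (h2 : StmtHERM) : StmtHL := by
  intro f S T R η B hf hS hT hSR hη hz hB x hx
  have hn : 1 ≤ T * S := Nat.one_le_iff_ne_zero.2 (by positivity)
  obtain ⟨P, hPdeg, hPz, hPc⟩ := h2 S T
    (fun l j => if l ∈ Icc 1 S ∧ j < T then iteratedDeriv j f (l : ℝ) else 0) η hS hT hη (by
      intro l j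
      split_ifs with h
      · exact hz l h.1 j h.2
      · simpa using hη)
  set n := T * S with hndef
  have hR1 : (1 : ℝ) ≤ R := by exact_mod_cast hS.trans hSR
  have hn1 : (1 : ℝ) ≤ (n : ℝ) := by exact_mod_cast hn
  have hB0 : 0 ≤ B := (abs_nonneg _).trans (hB x hx)
  -- the difference
  have hfa : ∀ (j : ℕ) (t : ℝ), ContDiffAt ℝ j f t := fun j t =>
    (hf.of_le (by exact_mod_cast le_top)).contDiffAt
  have hPa : ∀ (Q : Polynomial ℝ) (j : ℕ) (t : ℝ), ContDiffAt ℝ j (fun x => Q.eval x) t :=
    fun Q j t => (poly_cd Q j).contDiffAt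
  let u : ℝ → ℝ := fun t => f t - P.eval t
  have hu : ContDiff ℝ ∞ u := hf.sub (poly_cd P _)
  have hua : ∀ (j : ℕ) (t : ℝ), ContDiffAt ℝ j u t := fun j t =>
    (hu.of_le (by exact_mod_cast le_top)).contDiffAt
  have hud : ∀ j t, iteratedDeriv j u t =
      iteratedDeriv j f t - (Polynomial.derivative^[j] P).eval t := by
    intro j t
    have : iteratedDeriv j u t = iteratedDeriv j f t - iteratedDeriv j (fun x => P.eval x) t :=
      iteratedDeriv_sub (hfa j t) (hPa P j t)
    rw [this, iter_poly]
  -- the polynomial W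
  let W : Polynomial ℝ := ∏ l ∈ Icc 1 S, (Polynomial.X - Polynomial.C (l : ℝ)) ^ T
  have hWm : W.Monic := Polynomial.monic_prod_of_monic _ _ fun l _ =>
    (Polynomial.monic_X_sub_C _).pow _
  have hWd : W.natDegree = n := by
    rw [Polynomial.natDegree_prod_of_monic _ _ fun l _ => (Polynomial.monic_X_sub_C _).pow _]
    simp only [Polynomial.natDegree_pow, Polynomial.natDegree_X_sub_C, mul_one, sum_const,
      Nat.card_Icc, smul_eq_mul]
    rw [hndef]
    simp [mul_comm]
  have hWn : Polynomial.derivative^[n] W = Polynomial.C (n.factorial : ℝ) := by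
    ext k
    rw [Polynomial.coeff_iterate_derivative]
    rcases Nat.eq_zero_or_pos k with rfl | hk
    · rw [zero_add, Nat.descFactorial_self, Polynomial.coeff_C_zero]
      have : W.coeff n = 1 := by rw [← hWd]; exact hWm.coeff_natDegree
      rw [this]
      simp
    · rw [Polynomial.coeff_eq_zero_of_natDegree_lt (by omega), smul_zero,
        Polynomial.coeff_C_of_ne_zero (by omega)]
  have hWeval : ∀ t, W.eval t = ∏ l ∈ Icc 1 S, (t - l) ^ T := by
    intro t
    simp only [W, Polynomial.eval_prod, Polynomial.eval_pow, Polynomial.eval_sub,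
      Polynomial.eval_X, Polynomial.eval_C]
  have hWz : ∀ l ∈ Icc 1 S, ∀ j < T, (Polynomial.derivative^[j] W).eval (l : ℝ) = 0 := by
    intro l hl j hj
    have hd : (Polynomial.X - Polynomial.C (l : ℝ)) ^ T ∣ W :=
      Finset.dvd_prod_of_mem (fun l : ℕ => (Polynomial.X - Polynomial.C (l : ℝ)) ^ T) hl
    have hd2 := Polynomial.pow_sub_dvd_iterate_derivative_of_pow_dvd j hd
    have hd3 : (Polynomial.X - Polynomial.C (l : ℝ)) ∣ Polynomial.derivative^[j] W :=
      (dvd_pow_self _ (by omega)).trans hd2
    exact Polynomial.dvd_iff_isRoot.1 hd3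
  -- bound for u
  have hux : |u x| ≤ B * (R : ℝ) ^ n / n.factorial := by
    have hpos : 0 ≤ B * (R : ℝ) ^ n / n.factorial := by positivity
    by_cases hxl : ∃ l ∈ Icc 1 S, x = (l : ℝ)
    · obtain ⟨l, hl, rfl⟩ := hxl
      have : u (l : ℝ) = 0 := by
        have h3 := hPz l hl 0 (by omega)
        rw [if_pos ⟨hl, by omega⟩] at h3
        simp only [Function.iterate_zero, id_eq, iteratedDeriv_zero] at h3
        show f l - P.eval (l : ℝ) = 0
        rw [h3, sub_self]
      rw [this, abs_zero]
      exact hpos
    · push Not at hxl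
      let φ : ℝ → ℝ := fun t => u t * W.eval x - u x * W.eval t
      have hφ : ContDiff ℝ ∞ φ := (hu.mul contDiff_const).sub (contDiff_const.mul (poly_cd W _))
      have hφd : ∀ j t, iteratedDeriv j φ t = iteratedDeriv j u t * W.eval x -
          u x * (Polynomial.derivative^[j] W).eval t := by
        intro j t
        have e1 : iteratedDeriv j φ t = iteratedDeriv j (fun t => W.eval x * u t) t -
            iteratedDeriv j (fun t => u x * W.eval t) t := by
          have : φ = fun t => W.eval x * u t - u x * W.eval t := by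
            funext t
            show u t * W.eval x - u x * W.eval t = _
            ring
          rw [this]
          exact iteratedDeriv_fun_sub (contDiffAt_const.mul (hua j t))
            (contDiffAt_const.mul (hPa W j t))
        rw [e1, iteratedDeriv_const_mul_field, iteratedDeriv_const_mul_field, iter_poly]
        ring
      classical
      let Z : Finset ℝ := insert x ((Icc 1 S).image (fun l : ℕ => (l : ℝ)))
      have hxZ : x ∉ (Icc 1 S).image (fun l : ℕ => (l : ℝ)) := by
        intro h
        obtain ⟨l, hl, h⟩ := Finset.mem_image.1 h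
        exact hxl l hl h.symm
      let m : ℝ → ℕ := fun z => if z = x then 1 else T
      have hsum : ∑ z ∈ Z, m z = n + 1 := by
        rw [Finset.sum_insert hxZ, Finset.sum_image (fun a _ b _ h => by exact_mod_cast h)]
        have e1 : m x = 1 := if_pos rfl
        have e2 : ∀ l ∈ Icc 1 S, m (l : ℝ) = T := fun l hl => if_neg (fun h => hxl l hl h.symm)
        rw [e1, Finset.sum_congr rfl e2]
        simp only [sum_const, Nat.card_Icc, smul_eq_mul]
        rw [hndef]
        simp [mul_comm, add_comm]
      obtain ⟨τ, hτ, hτ0⟩ := h1 φ Z m 0 R hφ ⟨x, Finset.mem_insert_self _ _⟩ (by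
        intro z hzZ
        rcases Finset.mem_insert.1 hzZ with rfl | hzZ
        · refine ⟨hx, by simp [m], ?_⟩
          intro j hj
          have hj0 : j = 0 := by
            have : m z = 1 := if_pos rfl
            omega
          subst hj0
          rw [hφd]
          simp only [iteratedDeriv_zero, Function.iterate_zero, id_eq]
          ring
        · obtain ⟨l, hl, rfl⟩ := Finset.mem_image.1 hzZ
          have hlm : m (l : ℝ) = T := if_neg (fun h => hxl l hl h.symm)
          rw [Finset.mem_Icc] at hl
          refine ⟨⟨by positivity, by exact_mod_cast hl.2.trans hSR⟩, by omega, ?_⟩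
          intro j hj
          rw [hlm] at hj
          have hl' : l ∈ Icc 1 S := Finset.mem_Icc.2 hl
          rw [hφd, hWz l hl' j hj, hud, hPz l hl' j hj, if_pos ⟨hl', hj⟩]
          ring)
      rw [hsum, Nat.add_sub_cancel, hφd, hWn, hud,
        Polynomial.iterate_derivative_eq_zero hPdeg] at hτ0
      simp only [Polynomial.eval_zero, sub_zero, Polynomial.eval_C] at hτ0
      have hWx : |W.eval x| ≤ (R : ℝ) ^ n := by
        rw [hWeval, Finset.abs_prod]
        have : ∀ l ∈ Icc 1 S, |(x - (l : ℝ)) ^ T| ≤ (R : ℝ) ^ T := by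
          intro l hl
          rw [Finset.mem_Icc] at hl
          rw [abs_pow]
          refine pow_le_pow_left₀ (abs_nonneg _) ?_ _
          rw [abs_le]
          have h3 : (l : ℝ) ≤ R := by exact_mod_cast hl.2.trans hSR
          have h4 : (0 : ℝ) ≤ l := by positivity
          have h5 := hx.1
          have h6 := hx.2
          constructor <;> linarith
        calc ∏ l ∈ Icc 1 S, |(x - (l : ℝ)) ^ T| ≤ ∏ _l ∈ Icc 1 S, (R : ℝ) ^ T :=
              Finset.prod_le_prod (fun _ _ => abs_nonneg _) this
          _ = (R : ℝ) ^ n := by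
              rw [Finset.prod_const, Nat.card_Icc, Nat.add_sub_cancel, ← pow_mul]
      have hfact : (0 : ℝ) < n.factorial := by exact_mod_cast Nat.factorial_pos n
      rw [le_div_iff₀ hfact]
      have e3 : u x * n.factorial = iteratedDeriv n f τ * W.eval x := by linarith
      calc |u x| * n.factorial = |u x * n.factorial| := by
            rw [abs_mul, abs_of_pos hfact]
        _ = |iteratedDeriv n f τ| * |W.eval x| := by rw [e3, abs_mul]
        _ ≤ B * (R : ℝ) ^ n := mul_le_mul (hB τ hτ) hWx (abs_nonneg _) hB0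
  -- bound for P
  have hPx : |P.eval x| ≤ η * ((n : ℝ) * R) ^ (3 * n ^ 2) := by
    have hE : (((n : ℕ) : ℝ) * S) ^ (2 * n ^ 2) ≤ ((n : ℝ) * R) ^ (2 * n ^ 2) := by
      refine pow_le_pow_left₀ (by positivity) ?_ _
      have : (S : ℝ) ≤ R := by exact_mod_cast hSR
      exact mul_le_mul_of_nonneg_left this (by positivity)
    have hnR : (1 : ℝ) ≤ (n : ℝ) * R := by nlinarith
    rw [Polynomial.eval_eq_sum_range' hPdeg]
    calc |∑ k ∈ range n, P.coeff k * x ^ k| ≤ ∑ k ∈ range n, |P.coeff k * x ^ k| :=
          Finset.abs_sum_le_sum_abs _ _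
      _ ≤ ∑ _k ∈ range n, η * ((n : ℝ) * R) ^ (2 * n ^ 2) * (R : ℝ) ^ n := by
          refine Finset.sum_le_sum fun k hk => ?_
          rw [abs_mul, abs_pow, abs_of_nonneg hx.1]
          have h3 : x ^ k ≤ (R : ℝ) ^ n :=
            (pow_le_pow_left₀ hx.1 hx.2 k).trans
              (pow_le_pow_right₀ hR1 (Finset.mem_range.1 hk).le)
          have h4 : |P.coeff k| ≤ η * ((n : ℝ) * R) ^ (2 * n ^ 2) :=
            (hPc k).trans (mul_le_mul_of_nonneg_left hE hη)
          exact mul_le_mul h4 h3 (pow_nonneg hx.1 _) (by positivity)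
      _ = η * ((n : ℝ) * R) ^ (2 * n ^ 2) * ((n : ℝ) * (R : ℝ) ^ n) := by
          rw [Finset.sum_const, Finset.card_range, nsmul_eq_mul]
          ring
      _ ≤ η * ((n : ℝ) * R) ^ (2 * n ^ 2) * ((n : ℝ) * R) ^ (n ^ 2) := by
          refine mul_le_mul_of_nonneg_left ?_ (by positivity)
          calc (n : ℝ) * (R : ℝ) ^ n ≤ (n : ℝ) ^ n * (R : ℝ) ^ n := by
                refine mul_le_mul_of_nonneg_right ?_ (by positivity)
                exact le_self_pow₀ hn1 (by omega)
            _ = ((n : ℝ) * R) ^ n := by rw [mul_pow]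
            _ ≤ ((n : ℝ) * R) ^ (n ^ 2) := pow_le_pow_right₀ hnR (by nlinarith)
      _ = η * ((n : ℝ) * R) ^ (3 * n ^ 2) := by
          rw [mul_assoc, ← pow_add]
          congr 2
          ring
  have hfx : f x = u x + P.eval x := by
    show f x = f x - P.eval x + P.eval x
    ring
  rw [hfx]
  exact (abs_add_le _ _).trans (add_le_add hux hPx)

end Pool.Agent.Helper79.BM
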